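import Mathlib
set_option autoImplicit false
namespace Pool.Agent.TH84.C8_CONE

/-- Rational approximation on rational polyhedral cones. -/
theorem cone_approx {m : ℕ} {ι : Type} (S : ι → Fin m → ℤ) (hfin : (Set.range S).Finite)
    (Φ : Fin m → ℤ)
    (h : ∀ x : Fin m → ℤ, (∀ s, 0 ≤ ∑ i, S s i * x i) → 0 ≤ ∑ i, Φ i * x i)
    (r : Fin m → ℝ) (hr : ∀ s, 0 ≤ ∑ i, (S s i : ℝ) * r i) : 0 ≤ ∑ i, (Φ i : ℝ) * r i := by
  classical
  by_contra hneg
  rw [not_le] at hneg
  -- the rational span of the coordinates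
  let W : Submodule ℚ ℝ := Submodule.span ℚ (Set.range r)
  have : Module.Finite ℚ W := Module.Finite.span_of_finite ℚ (Set.finite_range r)
  let k := Module.finrank ℚ W
  let e : Module.Basis (Fin k) ℚ W := Module.finBasis ℚ W
  have hmem : ∀ i, r i ∈ W := fun i => Submodule.subset_span ⟨i, rfl⟩
  let q : Fin m → Fin k → ℚ := fun i l => e.repr ⟨r i, hmem i⟩ l
  let ev : Fin k → ℝ := fun l => (e l : ℝ)
  let X : (Fin k → ℝ) → Fin m → ℝ := fun u i => ∑ l, (q i l : ℝ) * u l
  have hXe : ∀ i, X ev i = r i := by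
    intro i
    have h1 := e.sum_repr ⟨r i, hmem i⟩
    have h2 := congrArg (fun w : W => (w : ℝ)) h1
    simp only [Submodule.coe_sum, Submodule.coe_smul] at h2
    rw [← h2]
    apply Finset.sum_congr rfl
    intro l _
    simp [q, ev, Rat.smul_def]
  -- integral linear forms vanishing at r vanish identically
  have hvan : ∀ c : Fin m → ℤ, ∑ i, (c i : ℝ) * r i = 0 → ∀ u, ∑ i, (c i : ℝ) * X u i = 0 := by
    intro c hc u
    have key : ∀ v : Fin k → ℝ, ∑ i, (c i : ℝ) * X v i
        = ∑ l, ((∑ i, (c i : ℚ) * q i l : ℚ) : ℝ) * v l := by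
      intro v
      simp only [X, Finset.mul_sum]
      rw [Finset.sum_comm]
      apply Finset.sum_congr rfl
      intro l _
      push_cast
      rw [Finset.sum_mul]
      apply Finset.sum_congr rfl
      intro i _
      ring
    have h0 : ∑ l, ((∑ i, (c i : ℚ) * q i l : ℚ) : ℝ) * ev l = 0 := by
      rw [← key ev]
      simpa [hXe] using hc
    have hli := e.linearIndependent
    rw [Fintype.linearIndependent_iff] at hli
    have hz := hli (fun l => ∑ i, (c i : ℚ) * q i l) (by
      apply Subtype.ext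
      simp only [Submodule.coe_sum, Submodule.coe_smul, Submodule.coe_zero, Rat.smul_def]
      exact h0)
    rw [key u]
    apply Finset.sum_eq_zero
    intro l _
    rw [hz l]
    simp
  have hcontX : ∀ c : Fin m → ℤ, Continuous fun u => ∑ i, (c i : ℝ) * X u i := by
    intro c
    simp only [X]
    fun_prop
  -- the open set
  let U : Set (Fin k → ℝ) := {u | ∑ i, (Φ i : ℝ) * X u i < 0} ∩
    ⋂ c ∈ {c ∈ Set.range S | 0 < ∑ i, (c i : ℝ) * r i}, {u | 0 < ∑ i, (c i : ℝ) * X u i}
  have hUo : IsOpen U := by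
    apply IsOpen.inter
    · exact isOpen_lt (hcontX Φ) continuous_const
    · apply Set.Finite.isOpen_biInter (hfin.subset (fun c hc => hc.1))
      intro c _
      exact isOpen_lt continuous_const (hcontX c)
  have hUe : ev ∈ U := by
    refine ⟨?_, ?_⟩
    · show ∑ i, (Φ i : ℝ) * X ev i < 0
      simpa [hXe] using hneg
    · simp only [Set.mem_iInter]
      intro c hc
      show 0 < ∑ i, (c i : ℝ) * X ev i
      simpa [hXe] using hc.2
  have hdense : DenseRange (fun (w : Fin k → ℚ) (l : Fin k) => ((w l : ℚ) : ℝ)) := by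
    have := DenseRange.piMap (fun _ : Fin k => (Rat.denseRange_cast (𝕜 := ℝ)))
    exact this
  obtain ⟨w, hw⟩ := hdense.exists_mem_open hUo ⟨ev, hUe⟩
  -- rational vector
  let y : Fin m → ℚ := fun i => ∑ l, q i l * w l
  have hy : ∀ i, X (fun l => ((w l : ℚ) : ℝ)) i = (y i : ℝ) := by
    intro i
    simp [X, y]
  -- clear denominators
  let N : ℕ := ∏ i, (y i).den
  have hN : 0 < N := Finset.prod_pos (fun i _ => (y i).den_pos)
  have hz : ∀ i, ∃ z : ℤ, (z : ℚ) = N * y i := by
    intro i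
    obtain ⟨M, hM⟩ : (y i).den ∣ N := Finset.dvd_prod_of_mem _ (Finset.mem_univ i)
    refine ⟨(y i).num * M, ?_⟩
    rw [hM]
    push_cast
    have h3 : ((y i).den : ℚ) ≠ 0 := by exact_mod_cast (y i).den_ne_zero
    have h4 : ((y i).num : ℚ) = (y i) * (y i).den := by
      rw [Rat.mul_den_eq_num]
    rw [h4]
    ring
  choose z hz using hz
  have hzr : ∀ i, (z i : ℝ) = N * (y i : ℝ) := by
    intro i
    have := hz i
    exact_mod_cast this
  have hscale : ∀ c : Fin m → ℤ, ((∑ i, c i * z i : ℤ) : ℝ)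
      = N * ∑ i, (c i : ℝ) * X (fun l => ((w l : ℚ) : ℝ)) i := by
    intro c
    push_cast
    rw [Finset.mul_sum]
    apply Finset.sum_congr rfl
    intro i _
    rw [hzr i, hy i]
    ring
  have hNr : (0 : ℝ) < N := by exact_mod_cast hN
  have hcon := h z (by
    intro s
    have h5 : (0 : ℝ) ≤ ((∑ i, S s i * z i : ℤ) : ℝ) := by
      rw [hscale (S s)]
      apply mul_nonneg hNr.le
      rcases (hr s).lt_or_eq with hlt | heq
      · have h6 := hw.2
        simp only [Set.mem_iInter] at h6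
        exact le_of_lt (h6 (S s) ⟨⟨s, rfl⟩, hlt⟩)
      · exact le_of_eq (hvan (S s) heq.symm _).symm
    exact_mod_cast h5)
  have h7 : (0 : ℝ) ≤ ((∑ i, Φ i * z i : ℤ) : ℝ) := by exact_mod_cast hcon
  rw [hscale Φ] at h7
  have h8 : ∑ i, (Φ i : ℝ) * X (fun l => ((w l : ℚ) : ℝ)) i < 0 := hw.1
  have h9 := mul_neg_of_pos_of_neg hNr h8
  linarith

end Pool.Agent.TH84.C8_CONE
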