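import Pool.Agent.TH62.PL.Stms
import Pool.Agent.TH62.PL.Stms2
import Pool.Agent.TH62.PL.Hall
import Pool.Agent.TH62.PL.Rep

set_option autoImplicit false

/-!
Job 824: chief factors as modules (for MP_fe96bf_al).
-/

namespace Pool.Agent.TH84.J824

open Pool.Agent.TH62.PL
open scoped commutatorElement TensorProduct

section abstr

variable {G U : Type} [Group G] [AddCommGroup U]

/-- version for an action on a module over the prime field -/
theorem mod_version (π : Set ℕ) (n : ℕ) (h : MTStm π n) (r : ℕ) [Fact r.Prime]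
    [Module (ZMod r) U] [Finite U] [Finite G] (a : G →* Module.End (ZMod r) U) (L : Subgroup G)
    (hr : r ∈ π) (hG : PSol π G) (hL : IsHall π L) (hn : a.ker.index ≤ n)
    (S : ℕ → Set U) (h0 : ∀ u, u ∈ S 0)
    (hS : ∀ i, ∀ g ∈ DS L i, ∀ u ∈ S i, a g u - u ∈ S (i + 1)) (m : ℕ)
    (hm : ∀ u ∈ S (m + 1), u = 0) : FL π m a.ker := by
  classical
  let k : Type := AlgebraicClosure (ZMod r)
  let V : Type := k ⊗[ZMod r] U
  have : CharP k r := inferInstance
  have : Module.Finite (ZMod r) U := Module.Finite.of_finite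
  have : FiniteDimensional k V := inferInstanceAs (Module.Finite k (k ⊗[ZMod r] U))
  let ρ' : G →* Module.End k V :=
    { toFun := fun g => (a g).baseChange k
      map_one' := by
        rw [map_one]; exact LinearMap.baseChange_one _ _
      map_mul' := fun g g' => by
        rw [map_mul]; exact LinearMap.baseChange_mul _ _ }
  have hρ' : ∀ g (c : k) (u : U), ρ' g (c ⊗ₜ[ZMod r] u) = c ⊗ₜ[ZMod r] (a g u) := by
    intro g c u
    exact LinearMap.baseChange_tmul _ _ _
  have hinj : Function.Injective (fun u : U => (1 : k) ⊗ₜ[ZMod r] u) :=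
    Module.FaithfullyFlat.tensorProduct_mk_injective (A := ZMod r) (B := k) U
  have hker : ρ'.ker = a.ker := by
    ext g
    rw [MonoidHom.mem_ker, MonoidHom.mem_ker]
    constructor
    · intro hg
      ext u
      have h1 := hρ' g 1 u
      rw [hg] at h1
      exact (hinj h1).symm
    · intro hg
      change (a g).baseChange k = 1
      rw [hg]; exact LinearMap.baseChange_one _ _
  have hCn : a.ker.Normal := inferInstance
  let ρ : (G ⧸ a.ker) →* Module.End k V :=
    QuotientGroup.lift a.ker ρ' (fun g hg => by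
      have h1 : g ∈ ρ'.ker := by rw [hker]; exact hg
      exact h1)
  have hρ : ∀ g : G, ρ (QuotientGroup.mk' a.ker g) = ρ' g := fun g => rfl
  have hgen : ∀ i, VC ρ (DS (L.map (QuotientGroup.mk' a.ker))) ⊤ i ≤
      Submodule.span k {v | ∃ u ∈ S i, v = (1 : k) ⊗ₜ[ZMod r] u} := by
    intro i
    induction i with
    | zero =>
      intro v _
      induction v using TensorProduct.induction_on with
      | zero => exact Submodule.zero_mem _
      | tmul c u =>
        have h1 : c ⊗ₜ[ZMod r] u = c • ((1 : k) ⊗ₜ[ZMod r] u) := by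
          rw [TensorProduct.smul_tmul', smul_eq_mul, mul_one]
        rw [h1]
        exact Submodule.smul_mem _ _ (Submodule.subset_span ⟨u, h0 u, rfl⟩)
      | add x y hx hy => exact Submodule.add_mem _ (hx trivial) (hy trivial)
    | succ i ih =>
      change cm ρ _ _ ≤ _
      rw [cm_le]
      intro g hg w hw
      rw [← DS.map] at hg
      obtain ⟨g0, hg0, rfl⟩ := hg
      rw [hρ]
      have hw' := ih hw
      clear hw
      induction hw' using Submodule.span_induction with
      | mem v hv =>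
        obtain ⟨u, hu, rfl⟩ := hv
        rw [hρ', ← TensorProduct.tmul_sub]
        exact Submodule.subset_span ⟨_, hS i g0 hg0 u hu, rfl⟩
      | zero => simp
      | add x y _ _ hx hy =>
        rw [map_add]
        have h1 : ρ' g0 x + ρ' g0 y - (x + y) = (ρ' g0 x - x) + (ρ' g0 y - y) := by abel
        rw [h1]; exact Submodule.add_mem _ hx hy
      | smul c x _ hx =>
        rw [map_smul]
        have h1 : c • (ρ' g0) x - c • x = c • ((ρ' g0) x - x) := (smul_sub c _ _).symm
        rw [h1]
        exact Submodule.smul_mem _ _ hx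
  have hbot : VC ρ (DS (L.map (QuotientGroup.mk' a.ker))) ⊤ (m + 1) = ⊥ := by
    rw [eq_bot_iff]
    refine (hgen (m + 1)).trans ?_
    rw [Submodule.span_le]
    rintro _ ⟨u, hu, rfl⟩
    rw [hm u hu]
    simp
  have hfl : FL π m ρ.ker := by
    refine h r k (G ⧸ a.ker) V ρ (L.map (QuotientGroup.mk' a.ker)) hr ?_ ?_ ?_ m hbot
    · exact hn
    · exact hG.map _ (QuotientGroup.mk'_surjective _)
    · exact hL.map _ (QuotientGroup.mk'_surjective _)
  have h2 := hfl.comap (QuotientGroup.mk' a.ker)
  have h3 : ρ.ker.comap (QuotientGroup.mk' a.ker) = a.ker := by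
    ext g
    constructor
    · intro hg
      have h4 : g ∈ ρ'.ker := hg
      rwa [hker] at h4
    · intro hg
      have h4 : g ∈ ρ'.ker := by rw [hker]; exact hg
      exact h4
  rwa [h3] at h2


/-- additive version -/
theorem add_version (π : Set ℕ) (n : ℕ) (h : MTStm π n) (r : ℕ) [Fact r.Prime]
    [Finite U] [Finite G] (hz : ∀ y : U, r • y = 0)
    (f : G → (U →+ U)) (f1 : ∀ y, f 1 y = y) (fm : ∀ g g' y, f (g * g') y = f g (f g' y))
    (L C : Subgroup G) (hC : ∀ g, g ∈ C ↔ ∀ y, f g y = y)
    (hr : r ∈ π) (hG : PSol π G) (hL : IsHall π L) (hn : C.index ≤ n)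
    (S : ℕ → Set U) (h0 : ∀ u, u ∈ S 0)
    (hS : ∀ i, ∀ g ∈ DS L i, ∀ u ∈ S i, f g u - u ∈ S (i + 1)) (m : ℕ)
    (hm : ∀ u ∈ S (m + 1), u = 0) : FL π m C := by
  obtain ⟨inst⟩ : Nonempty (Module (ZMod r) U) := ⟨AddCommGroup.zmodModule hz⟩
  let a : G →* Module.End (ZMod r) U :=
    { toFun := fun g => (f g).toZModLinearMap r
      map_one' := LinearMap.ext fun u => f1 u
      map_mul' := fun g g' => LinearMap.ext fun u => fm g g' u }
  have ha : ∀ g (y : U), a g y = f g y := fun g y => rfl
  have hker : a.ker = C := by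
    ext g
    rw [MonoidHom.mem_ker, hC]
    constructor
    · intro hg y
      have h1 := ha g y
      rw [hg] at h1
      exact h1.symm
    · intro hg
      exact LinearMap.ext fun u => hg u
  have key := mod_version (U := U) π n h r a L hr hG hL (by rw [hker]; exact hn)
    S h0 hS m hm
  rwa [hker] at key

/-- multiplicative version -/
theorem mul_version (π : Set ℕ) (n : ℕ) (h : MTStm π n) (r : ℕ) [Fact r.Prime]
    (H : Type) [CommGroup H] [Finite H] [Finite G] (hz : ∀ y : H, y ^ r = 1)
    (f : G → (H →* H)) (f1 : ∀ y, f 1 y = y) (fm : ∀ g g' y, f (g * g') y = f g (f g' y))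
    (L C : Subgroup G) (hC : ∀ g, g ∈ C ↔ ∀ y, f g y = y)
    (hr : r ∈ π) (hG : PSol π G) (hL : IsHall π L) (hn : C.index ≤ n)
    (S : ℕ → Set H) (h0 : ∀ u, u ∈ S 0)
    (hS : ∀ i, ∀ g ∈ DS L i, ∀ u ∈ S i, f g u * u⁻¹ ∈ S (i + 1)) (m : ℕ)
    (hm : ∀ u ∈ S (m + 1), u = 1) : FL π m C :=
  add_version (U := Additive H) π n h r (fun u => hz (Additive.toMul u))
    (fun g => MonoidHom.toAdditive (f g)) (fun u => f1 (Additive.toMul u))
    (fun g g' u => fm g g' (Additive.toMul u)) L C hC hr hG hL hn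
    (fun i => {u : Additive H | Additive.toMul u ∈ S i})
    (fun u => h0 _) (fun i g hg u hu => by
      have h1 : f g (Additive.toMul u) / (Additive.toMul u) ∈ S (i + 1) := by
        rw [div_eq_mul_inv]; exact hS i g hg _ hu
      exact h1) m (fun u hu => hm _ hu)

end abstr

theorem eStm (π : Set ℕ) (hπ : ∀ p ∈ π, p.Prime) (n : ℕ) (h : MTStm π n) : EStm π n := by
  intro G _ _ L P₁ P₂ C r hG hL hP₁ hP₂ hPP hr hrπ hcomm hpow hC hn m hCE
  have := Fact.mk hr
  have := hP₁
  have := hP₂
  have hsn : (P₂.subgroupOf P₁).Normal := inferInstance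
  let H := P₁ ⧸ P₂.subgroupOf P₁
  have hmk : ∀ x : P₁, (QuotientGroup.mk x : H) = 1 ↔ (x : G) ∈ P₂ := by
    intro x
    rw [QuotientGroup.eq_one_iff, Subgroup.mem_subgroupOf]
  have hmul : ∀ x y : H, x * y = y * x := by
    intro x y
    induction x using QuotientGroup.induction_on with
    | H x =>
      induction y using QuotientGroup.induction_on with
      | H y =>
        rw [← QuotientGroup.mk_mul, ← QuotientGroup.mk_mul, QuotientGroup.eq,
          Subgroup.mem_subgroupOf]
        have h1 : (((x : G) * (y : G))⁻¹ * ((y : G) * (x : G))) = ⁅(y : G)⁻¹, (x : G)⁻¹⁆ := by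
          rw [commutatorElement_def]; group
        have h2 : (((x * y)⁻¹ * (y * x) : P₁) : G) = ((x : G) * (y : G))⁻¹ * ((y : G) * (x : G)) := by
          simp
        rw [h2, h1]
        exact hcomm (Subgroup.commutator_mem_commutator (inv_mem y.2) (inv_mem x.2))
  let _ : CommGroup H := { (inferInstance : Group H) with mul_comm := hmul }
  have hz : ∀ y : H, y ^ r = 1 := by
    intro y
    induction y using QuotientGroup.induction_on with
    | H y =>
      rw [← QuotientGroup.mk_pow]
      exact (hmk _).2 (by simpa using hpow y y.2)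
  let f : G → (H →* H) := fun g => QuotientGroup.map (P₂.subgroupOf P₁) (P₂.subgroupOf P₁)
    (MulAut.conjNormal (H := P₁) g).toMonoidHom (by
      intro x hx
      rw [Subgroup.mem_comap, Subgroup.mem_subgroupOf]
      have h1 : (((MulAut.conjNormal (H := P₁) g).toMonoidHom x : P₁) : G) = g * x * g⁻¹ :=
        MulAut.conjNormal_apply g x
      rw [h1]
      exact hP₂.conj_mem _ hx g)
  have hf : ∀ g (x : P₁), f g (QuotientGroup.mk x) =
      QuotientGroup.mk (⟨g * x * g⁻¹, hP₁.conj_mem _ x.2 g⟩ : P₁) := by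
    intro g x
    change (QuotientGroup.mk (MulAut.conjNormal (H := P₁) g x) : H) = _
    exact congrArg _ (Subtype.ext (MulAut.conjNormal_apply g x))
  have hfd : ∀ g (x : P₁), f g (QuotientGroup.mk x) * (QuotientGroup.mk x : H)⁻¹ =
      QuotientGroup.mk (⟨g * x * g⁻¹, hP₁.conj_mem _ x.2 g⟩ * x⁻¹ : P₁) := by
    intro g x
    rw [hf]; rfl
  refine mul_version π n h r H hz f ?_ ?_ L C ?_ hrπ hG hL hn
    (fun i => {u : H | ∃ x : P₁, (x : G) ∈ CE P₁ (DS L) i ∧ u = QuotientGroup.mk x})
    ?_ ?_ m ?_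
  · intro y
    induction y using QuotientGroup.induction_on with
    | H y =>
      rw [hf]; exact congrArg _ (Subtype.ext (by simp))
  · intro g g' y
    induction y using QuotientGroup.induction_on with
    | H y =>
      rw [hf, hf, hf]; exact congrArg _ (Subtype.ext (by simp [mul_assoc]))
  · intro g
    rw [hC]
    constructor
    · intro hg y
      induction y using QuotientGroup.induction_on with
      | H x =>
        have h2 : (QuotientGroup.mk (⟨g * x * g⁻¹, hP₁.conj_mem _ x.2 g⟩ * x⁻¹ : P₁) : H) = 1 :=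
          (hmk _).2 (by simpa using hg x x.2)
        rw [← hfd, mul_inv_eq_one] at h2
        exact h2
    · intro hg x hx
      have h1 := hfd g ⟨x, hx⟩
      rw [hg, mul_inv_cancel] at h1
      have h2 := (hmk _).1 h1.symm
      simpa using h2
  · intro u
    obtain ⟨x, hx⟩ := QuotientGroup.mk_surjective u
    exact ⟨x, x.2, hx.symm⟩
  · rintro i g hg _ ⟨x, hx, rfl⟩
    refine ⟨⟨g * x * g⁻¹, hP₁.conj_mem _ x.2 g⟩ * x⁻¹, ?_, hfd g x⟩
    have h1 : ((⟨g * x * g⁻¹, hP₁.conj_mem _ x.2 g⟩ * x⁻¹ : P₁) : G) = ⁅g, (x : G)⁆ := by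
      rw [commutatorElement_def]; rfl
    rw [h1]
    change _ ∈ ⁅CE P₁ (DS L) i, DS L i⁆
    rw [Subgroup.commutator_comm]
    exact Subgroup.commutator_mem_commutator hg hx
  · rintro _ ⟨x, hx, rfl⟩
    exact (hmk _).2 (hCE hx)

end Pool.Agent.TH84.J824
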