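import Pool.Agent.TH62.PL.Stms

set_option autoImplicit false

/-!
Job 727: decomposition of a module under an abelian normal subgroup.
-/

namespace Pool.Agent.TH84.J727

open Pool.Agent.TH62.PL

section general
variable {k A V : Type} [Field k] [IsAlgClosed k] [CommGroup A] [Finite A]
  [AddCommGroup V] [Module k V]

theorem neZero_exp (hA : ((Nat.card A : ℕ) : k) ≠ 0) : NeZero ((Monoid.exponent A : ℕ) : k) := by
  refine ⟨fun h => hA ?_⟩
  obtain ⟨c, hc⟩ := Group.exponent_dvd_nat_card (G := A)
  rw [hc, Nat.cast_mul, h, zero_mul]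

theorem card_dual (hA : ((Nat.card A : ℕ) : k) ≠ 0) : Nat.card (A →* kˣ) = Nat.card A := by
  haveI := neZero_exp (k := k) (A := A) hA
  exact CommGroup.card_monoidHom_of_hasEnoughRootsOfUnity A k

theorem finite_dual (hA : ((Nat.card A : ℕ) : k) ≠ 0) : Finite (A →* kˣ) := by
  apply Nat.finite_of_card_ne_zero
  rw [card_dual hA]
  exact Nat.card_pos.ne'

variable [Fintype A]

/-- the idempotent of a linear character -/
noncomputable def E (σ : A →* Module.End k V) (l : A →* kˣ) : Module.End k V :=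
  ((Nat.card A : ℕ) : k)⁻¹ • ∑ z : A, (((l z)⁻¹ : kˣ) : k) • σ z

theorem mul_E (σ : A →* Module.End k V) (l : A →* kˣ) (a : A) :
    σ a * E σ l = ((l a : kˣ) : k) • E σ l := by
  unfold E
  rw [mul_smul_comm, smul_comm]
  congr 1
  rw [Finset.mul_sum, Finset.smul_sum, ← Equiv.sum_comp (Equiv.mulLeft a)
    (fun z => ((l a : kˣ) : k) • ((((l z)⁻¹ : kˣ) : k) • σ z))]
  refine Finset.sum_congr rfl fun z _ => ?_
  simp only [Equiv.coe_mulLeft, map_mul, mul_smul_comm, mul_inv_rev]
  rw [smul_smul, Units.val_mul]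
  congr 1
  have : ((l a : kˣ) : k) * (((l a)⁻¹ : kˣ) : k) = 1 := by
    rw [← Units.val_mul, mul_inv_cancel, Units.val_one]
  rw [mul_comm, mul_assoc, mul_comm _ ((l a : kˣ) : k), this, mul_one]

theorem E_mul_E (σ : A →* Module.End k V) (l m : A →* kˣ) :
    E σ l * E σ m = (((Nat.card A : ℕ) : k)⁻¹ * ∑ z : A, ((((l z)⁻¹ * m z : kˣ)) : k)) • E σ m := by
  conv_lhs => rw [E]
  rw [smul_mul_assoc, Finset.sum_mul, mul_smul, Finset.sum_smul]
  congr 1
  refine Finset.sum_congr rfl fun z _ => ?_
  rw [smul_mul_assoc, mul_E, smul_smul, Units.val_mul]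

theorem sum_char (l m : A →* kˣ) (h : l ≠ m) :
    ∑ z : A, ((((l z)⁻¹ * m z : kˣ)) : k) = 0 := by
  classical
  let f : A →* k := (Units.coeHom k).comp (l⁻¹ * m)
  have hf : f ≠ 1 := by
    intro hf
    apply h
    ext z
    have h1 := DFunLike.congr_fun hf z
    simp only [f, MonoidHom.comp_apply, MonoidHom.mul_apply, MonoidHom.inv_apply,
      Units.coeHom_apply, MonoidHom.one_apply] at h1
    have h2 : (l z)⁻¹ * m z = 1 := Units.ext (by simpa using h1)
    have h3 : m z = l z := by
      rw [inv_mul_eq_one] at h2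
      exact h2.symm
    rw [h3]
  have := sum_hom_units_eq_zero f hf
  simpa [f] using this

theorem E_orth (σ : A →* Module.End k V) (l m : A →* kˣ) (h : l ≠ m) :
    E σ l * E σ m = 0 := by
  rw [E_mul_E, sum_char l m h, mul_zero, zero_smul]

theorem E_idem (hA : ((Nat.card A : ℕ) : k) ≠ 0) (σ : A →* Module.End k V) (l : A →* kˣ) :
    E σ l * E σ l = E σ l := by
  rw [E_mul_E]
  have h1 : ∑ z : A, ((((l z)⁻¹ * l z : kˣ)) : k) = ((Nat.card A : ℕ) : k) := by
    simp [Nat.card_eq_fintype_card]
  rw [h1, inv_mul_cancel₀ hA, one_smul]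

theorem sum_E (hA : ((Nat.card A : ℕ) : k) ≠ 0) [Fintype (A →* kˣ)] (σ : A →* Module.End k V) :
    ∑ l : A →* kˣ, E σ l = 1 := by
  classical
  haveI := neZero_exp (k := k) (A := A) hA
  unfold E
  rw [← Finset.smul_sum, Finset.sum_comm]
  have h1 : ∀ z : A, ∑ l : A →* kˣ, (((l z)⁻¹ : kˣ) : k) • σ z =
      if z = 1 then ((Nat.card A : ℕ) : k) • (1 : Module.End k V) else 0 := by
    intro z
    rw [← Finset.sum_smul]
    split_ifs with hz
    · subst hz
      rw [map_one]
      congr 1
      simp only [map_one, inv_one, Units.val_one, Finset.sum_const, Finset.card_univ,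
        nsmul_eq_mul, mul_one]
      rw [← card_dual hA, Nat.card_eq_fintype_card]
    · obtain ⟨φ, hφ⟩ := CommGroup.exists_apply_ne_one_of_hasEnoughRootsOfUnity A k
        (a := z⁻¹) (by simpa using hz)
      let f : (A →* kˣ) →* k :=
        { toFun := fun l => ((l z⁻¹ : kˣ) : k)
          map_one' := by simp
          map_mul' := fun a b => by simp }
      have hf : f ≠ 1 := by
        intro hf
        apply hφ
        have h2 := DFunLike.congr_fun hf φ
        exact Units.ext (by simpa [f] using h2)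
      have h3 := sum_hom_units_eq_zero f hf
      have h4 : ∑ l : A →* kˣ, (((l z)⁻¹ : kˣ) : k) = 0 := by
        rw [← h3]
        refine Finset.sum_congr rfl fun l _ => ?_
        simp [f]
      rw [h4, zero_smul]
  rw [Finset.sum_congr rfl fun z _ => h1 z, Finset.sum_ite_eq' Finset.univ (1 : A),
    if_pos (Finset.mem_univ _), smul_smul, inv_mul_cancel₀ hA, one_smul]

theorem equi_E {G : Type} [Group G] (ρ : G →* Module.End k V) (σ : A →* Module.End k V)
    (α : G →* MulAut A) (h : ∀ g a, ρ g * σ a = σ (α g a) * ρ g) (g : G) (l : A →* kˣ) :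
    ρ g * E σ l = E σ (l.comp (α g⁻¹).toMonoidHom) * ρ g := by
  unfold E
  rw [mul_smul_comm, smul_mul_assoc, Finset.mul_sum, Finset.sum_mul]
  congr 1
  rw [← Equiv.sum_comp (α g).toEquiv (fun z => ((((l.comp (α g⁻¹).toMonoidHom) z)⁻¹ : kˣ) : k) •
    σ z * ρ g)]
  refine Finset.sum_congr rfl fun z _ => ?_
  rw [mul_smul_comm, h, smul_mul_assoc]
  congr 3
  simp

end general

theorem charDec : CharDecStm := by
  classical
  intro k G V _ _ _ _ _ _ ρ Z hZn hZc hcard
  haveI := hZn
  letI inst : CommGroup Z :=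
    { (inferInstance : Group Z) with
      mul_comm := fun x y => Subtype.ext (hZc x x.2 y y.2) }
  letI : Fintype Z := Fintype.ofFinite Z
  haveI : Finite (Z →* kˣ) := finite_dual (A := Z) (k := k) hcard
  letI : Fintype (Z →* kˣ) := Fintype.ofFinite _
  let act : MulAction G (Z →* kˣ) :=
    { smul := fun g l => l.comp (MulAut.conjNormal g⁻¹ : MulAut Z).toMonoidHom
      one_smul := fun l => by
        change l.comp _ = l
        ext z
        simp
      mul_smul := fun g h l => by
        change l.comp _ = (l.comp _).comp _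
        ext z
        simp [mul_assoc] }
  have hact : ∀ (g : G) (l : Z →* kˣ),
      act.toSMul.smul g l = l.comp (MulAut.conjNormal g⁻¹ : MulAut Z).toMonoidHom :=
    fun g l => rfl
  let σ : Z →* Module.End k V := ρ.comp Z.subtype
  refine ⟨Z →* kˣ, inferInstance, act, E σ,
    fun l g => if h : g ∈ Z then ((l ⟨g, h⟩ : kˣ) : k) else 1, ?_, ?_, ?_, ?_, ?_, ?_⟩
  · refine ⟨E_idem hcard σ, fun l m h => E_orth σ l m h, sum_E hcard σ, fun g l => ?_⟩
    have := equi_E ρ σ (MulAut.conjNormal : G →* MulAut Z) (fun g a => by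
      simp only [σ, MonoidHom.comp_apply, Subgroup.coe_subtype, MulAut.conjNormal_apply, ← map_mul]
      congr 1
      group) g l
    exact this
  · intro l z hz
    simp only [hz, dite_true]
    exact mul_E σ l ⟨z, hz⟩
  · intro l z hz z' hz'
    simp only [hz, hz', mul_mem hz hz', dite_true]
    rw [← Units.val_mul, ← map_mul]
    rfl
  · intro l z hz
    simp only [hz, dite_true]
    exact Units.ne_zero _
  · intro g l z hz
    have h1 : g * z * g⁻¹ ∈ Z := hZn.conj_mem z hz g
    simp only [hz, h1, dite_true]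
    congr 1
    change (l.comp (MulAut.conjNormal g⁻¹ : MulAut Z).toMonoidHom) ⟨g * z * g⁻¹, h1⟩ = l ⟨z, hz⟩
    simp only [MonoidHom.comp_apply]
    congr 1
    apply Subtype.ext
    simp [mul_assoc]
  · intro l m h
    ext z
    have := h z z.2
    simpa using this

end Pool.Agent.TH84.J727
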